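import Mathlib

set_option autoImplicit false

/-!
# Invariant subspaces of functions on a finite abelian group

Every nonzero translation invariant subspace of the rational functions on a finite abelian group
contains a nonzero function with values in `{0, 1, -1}`.
-/

open Polynomial

noncomputable section

namespace Pool.Agent.T6.H14.CM

section Cyc

/-- the product of `1 - X ^ (m / p)` -/
def EE (m : ℕ) : ℚ[X] := ∏ p ∈ m.primeFactors, (1 - X ^ (m / p))

theorem cyc_dvd_EE {m d : ℕ} (hm : 0 < m) (hd : d ∈ m.properDivisors) :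
    cyclotomic d ℚ ∣ EE m := by
  obtain ⟨h1, h2⟩ := Nat.mem_properDivisors.1 hd
  obtain ⟨k, rfl⟩ := h1
  have hk : k ≠ 1 := by
    rintro rfl
    omega
  obtain ⟨p, hp, hpk⟩ := Nat.exists_prime_and_dvd hk
  obtain ⟨j, rfl⟩ := hpk
  have hmem : p ∈ (d * (p * j)).primeFactors := by
    rw [Nat.mem_primeFactors]
    exact ⟨hp, ⟨d * j, by ring⟩, hm.ne'⟩
  refine dvd_trans ?_ (Finset.dvd_prod_of_mem _ hmem)
  have h3 : d * (p * j) / p = d * j := by
    rw [show d * (p * j) = (d * j) * p by ring, Nat.mul_div_cancel _ hp.pos]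
  rw [h3]
  refine dvd_trans (cyclotomic.dvd_X_pow_sub_one d ℚ) ?_
  have h4 : (X ^ d - 1 : ℚ[X]) ∣ X ^ (d * j) - 1 := by
    rw [pow_mul]
    exact sub_one_dvd_pow_sub_one _ _
  obtain ⟨q, hq⟩ := h4
  exact ⟨-q, by linear_combination -hq⟩

theorem X_pow_dvd {m : ℕ} (hm : 0 < m) {P : ℚ[X]} (hP : cyclotomic m ℚ ∣ P) :
    (X ^ m - 1 : ℚ[X]) ∣ P * EE m := by
  rw [← prod_cyclotomic_eq_X_pow_sub_one hm ℚ, ← Nat.cons_self_properDivisors hm.ne',
    Finset.prod_cons]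
  refine mul_dvd_mul hP (Finset.prod_dvd_of_coprime ?_ fun d hd => cyc_dvd_EE hm hd)
  intro a _ b _ hab
  exact cyclotomic.isCoprime_rat hab

/-- the sum of the coefficients with exponents divisible by `m` -/
def Lm (m : ℕ) : ℚ[X] →ₗ[ℚ] ℚ :=
  Polynomial.lsum fun j => if m ∣ j then LinearMap.id else 0

theorem Lm_mon (m j : ℕ) (c : ℚ) : Lm m (monomial j c) = if m ∣ j then c else 0 := by
  unfold Lm
  rw [Polynomial.lsum_apply, Polynomial.sum_monomial_index]
  · split_ifs <;> rfl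
  · split_ifs <;> rfl

theorem Lm_zero (m : ℕ) {P : ℚ[X]} (hP : (X ^ m - 1 : ℚ[X]) ∣ P) : Lm m P = 0 := by
  obtain ⟨R, rfl⟩ := hP
  induction R using Polynomial.induction_on' with
  | add p q hp hq => rw [mul_add, map_add, hp, hq, add_zero]
  | monomial j c =>
    have h1 : (X ^ m - 1 : ℚ[X]) * monomial j c = monomial (j + m) c - monomial j c := by
      rw [sub_mul, one_mul, X_pow_mul, monomial_mul_X_pow]
    rw [h1, map_sub, Lm_mon, Lm_mon]
    have h2 : m ∣ j + m ↔ m ∣ j := by simp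
    simp only [h2, sub_self]

/-- the values -/
def hv (m k : ℕ) : ℚ := Lm m (X ^ k * EE m)

theorem hv_eq (m k : ℕ) : hv m k = ∑ S ∈ m.primeFactors.powerset,
    (if m ∣ k + ∑ p ∈ S, m / p then (-1 : ℚ) ^ S.card else 0) := by
  unfold hv EE
  have h1 : ∏ p ∈ m.primeFactors, (1 - X ^ (m / p) : ℚ[X]) = ∑ S ∈ m.primeFactors.powerset,
      C ((-1 : ℚ) ^ S.card) * X ^ (∑ p ∈ S, m / p) := by
    have h2 : ∀ p ∈ m.primeFactors, (1 - X ^ (m / p) : ℚ[X]) = -X ^ (m / p) + 1 := fun p _ => by ring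
    rw [Finset.prod_congr rfl h2, Finset.prod_add_one]
    refine Finset.sum_congr rfl fun S _ => ?_
    rw [Finset.prod_neg, Finset.prod_pow_eq_pow_sum]
    simp
  rw [h1, Finset.mul_sum, map_sum]
  refine Finset.sum_congr rfl fun S _ => ?_
  have h3 : (X ^ k * (C ((-1 : ℚ) ^ S.card) * X ^ (∑ p ∈ S, m / p)) : ℚ[X]) =
      monomial (k + ∑ p ∈ S, m / p) ((-1 : ℚ) ^ S.card) := by
    rw [← C_mul_X_pow_eq_monomial, pow_add]
    ring
  rw [h3, Lm_mon]

theorem uniq {m k : ℕ} (hm : 0 < m) {S S' : Finset ℕ} (hS : S ⊆ m.primeFactors)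
    (hS' : S' ⊆ m.primeFactors) (h : m ∣ k + ∑ p ∈ S, m / p) (h' : m ∣ k + ∑ p ∈ S', m / p) :
    S ⊆ S' := by
  intro p hp
  by_contra hp'
  have hpp := Nat.prime_of_mem_primeFactors (hS hp)
  have hpm : p ∣ m := Nat.dvd_of_mem_primeFactors (hS hp)
  have h1 : (m : ℤ) ∣ ∑ q ∈ S, ((m / q : ℕ) : ℤ) - ∑ q ∈ S', ((m / q : ℕ) : ℤ) := by
    have a1 : (m : ℤ) ∣ (k : ℤ) + ∑ q ∈ S, ((m / q : ℕ) : ℤ) := by exact_mod_cast h
    have a2 : (m : ℤ) ∣ (k : ℤ) + ∑ q ∈ S', ((m / q : ℕ) : ℤ) := by exact_mod_cast h'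
    have := dvd_sub a1 a2
    have e : (k : ℤ) + ∑ q ∈ S, ((m / q : ℕ) : ℤ) - ((k : ℤ) + ∑ q ∈ S', ((m / q : ℕ) : ℤ)) =
      ∑ q ∈ S, ((m / q : ℕ) : ℤ) - ∑ q ∈ S', ((m / q : ℕ) : ℤ) := by ring
    rwa [e] at this
  -- the product of the other primes
  let N : ℕ := ∏ q ∈ m.primeFactors.erase p, q
  have hN : ∀ q ∈ m.primeFactors, q ≠ p → (m : ℤ) ∣ (N : ℤ) * ((m / q : ℕ) : ℤ) := by
    intro q hq hqp
    have hqN : q ∣ N := Finset.dvd_prod_of_mem _ (Finset.mem_erase.2 ⟨hqp, hq⟩)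
    obtain ⟨r, hr⟩ := hqN
    have hqm : q ∣ m := Nat.dvd_of_mem_primeFactors hq
    have : N * (m / q) = m * r := by
      rw [hr, mul_comm q r, mul_assoc, Nat.mul_div_cancel' hqm, mul_comm]
    refine ⟨(r : ℤ), ?_⟩
    exact_mod_cast this
  have h2 : (m : ℤ) ∣ (N : ℤ) * ((m / p : ℕ) : ℤ) := by
    have h3 := Dvd.dvd.mul_left h1 (N : ℤ)
    rw [mul_sub, Finset.mul_sum, Finset.mul_sum, ← Finset.add_sum_erase _ _ hp] at h3
    have h4 : (m : ℤ) ∣ ∑ q ∈ S.erase p, (N : ℤ) * ((m / q : ℕ) : ℤ) :=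
      Finset.dvd_sum fun q hq => hN q (hS (Finset.mem_of_mem_erase hq)) (Finset.ne_of_mem_erase hq)
    have h5 : (m : ℤ) ∣ ∑ q ∈ S', (N : ℤ) * ((m / q : ℕ) : ℤ) :=
      Finset.dvd_sum fun q hq => hN q (hS' hq) (by rintro rfl; exact hp' hq)
    have h6 := dvd_add (dvd_sub h3 h4) h5
    have e : (N : ℤ) * ((m / p : ℕ) : ℤ) + ∑ q ∈ S.erase p, (N : ℤ) * ((m / q : ℕ) : ℤ) -
        ∑ q ∈ S', (N : ℤ) * ((m / q : ℕ) : ℤ) - ∑ q ∈ S.erase p, (N : ℤ) * ((m / q : ℕ) : ℤ) +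
        ∑ q ∈ S', (N : ℤ) * ((m / q : ℕ) : ℤ) = (N : ℤ) * ((m / p : ℕ) : ℤ) := by ring
    rwa [e] at h6
  have h7 : m ∣ N * (m / p) := by exact_mod_cast h2
  obtain ⟨r, hr⟩ := h7
  have hmp : 0 < m / p := Nat.div_pos (Nat.le_of_dvd hm hpm) hpp.pos
  have h8 : p ∣ N := by
    refine ⟨r, Nat.eq_of_mul_eq_mul_right hmp ?_⟩
    rw [hr]
    have h9 : m = p * (m / p) := (Nat.mul_div_cancel' hpm).symm
    calc m * r = (p * (m / p)) * r := by rw [← h9]
      _ = p * r * (m / p) := by ring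
  obtain ⟨q, hq, hpq⟩ := (hpp.prime.dvd_finsetProd_iff _).1 h8
  have hqp := Nat.prime_of_mem_primeFactors (Finset.mem_of_mem_erase hq)
  exact Finset.ne_of_mem_erase hq ((Nat.prime_dvd_prime_iff_eq hpp hqp).1 hpq).symm

theorem hv_val {m : ℕ} (hm : 0 < m) (k : ℕ) : hv m k = 0 ∨ hv m k = 1 ∨ hv m k = -1 := by
  rw [hv_eq]
  by_cases h : ∃ S ∈ m.primeFactors.powerset, m ∣ k + ∑ p ∈ S, m / p
  · obtain ⟨S, hS, hSm⟩ := h
    rw [Finset.sum_eq_single S, if_pos hSm]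
    · exact Or.inr (neg_one_pow_eq_or ℚ _)
    · intro S' hS' hne
      rw [if_neg]
      intro hSm'
      exact hne (Finset.Subset.antisymm
        (uniq hm (Finset.mem_powerset.1 hS') (Finset.mem_powerset.1 hS) hSm' hSm)
        (uniq hm (Finset.mem_powerset.1 hS) (Finset.mem_powerset.1 hS') hSm hSm'))
    · intro h
      exact absurd hS h
  · push Not at h
    left
    exact Finset.sum_eq_zero fun S hS => if_neg (h S hS)

theorem hv_zero {m : ℕ} (hm : 0 < m) : hv m 0 = 1 := by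
  rw [hv_eq, Finset.sum_eq_single ∅]
  · simp
  · intro S hS hne
    rw [if_neg]
    intro hSm
    refine hne (Finset.subset_empty.1 (uniq (k := 0) hm (Finset.mem_powerset.1 hS)
      (Finset.empty_subset _) hSm ?_))
    simp
  · intro h
    exact absurd (Finset.empty_mem_powerset _) h

end Cyc

/-- **Invariant subspaces contain functions with values in `{0, 1, -1}`.** -/
theorem comb {G : Type} [AddCommGroup G] [Fintype G] (A : Submodule ℚ (G → ℚ))
    (hA : ∀ f ∈ A, ∀ a : G, (fun x => f (a + x)) ∈ A) (h0 : A ≠ ⊥) :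
    ∃ h ∈ A, h ≠ 0 ∧ ∀ x, h x = 0 ∨ h x = 1 ∨ h x = -1 := by
  classical
  obtain ⟨f, hf, hf0⟩ := (Submodule.ne_bot_iff _).1 h0
  obtain ⟨χ, hχ⟩ : ∃ χ : AddChar G ℂ, ∑ x, (f x : ℂ) * χ x ≠ 0 := by
    by_contra hcon
    push Not at hcon
    refine hf0 (funext fun y => ?_)
    have h1 : ∑ χ : AddChar G ℂ, χ (-y) * ∑ x, (f x : ℂ) * χ x = 0 :=
      Finset.sum_eq_zero fun χ _ => by rw [hcon χ, mul_zero]
    have h2 : ∑ χ : AddChar G ℂ, χ (-y) * ∑ x, (f x : ℂ) * χ x =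
        (f y : ℂ) * (Fintype.card G : ℂ) := by
      simp only [Finset.mul_sum]
      rw [Finset.sum_comm]
      have h3 : ∀ x, ∑ χ : AddChar G ℂ, χ (-y) * ((f x : ℂ) * χ x) =
          (f x : ℂ) * if x = y then (Fintype.card G : ℂ) else 0 := by
        intro x
        have h4 := AddChar.sum_apply_eq_ite (x - y)
        simp only [sub_eq_zero] at h4
        rw [← h4, Finset.mul_sum]
        refine Finset.sum_congr rfl fun χ _ => ?_
        rw [sub_eq_add_neg, AddChar.map_add_eq_mul]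
        ring
      simp only [h3]
      rw [Finset.sum_eq_single y]
      · rw [if_pos rfl]
      · intro x _ hx
        rw [if_neg hx, mul_zero]
      · intro h
        exact absurd (Finset.mem_univ _) h
    rw [h2] at h1
    have h5 : (Fintype.card G : ℂ) ≠ 0 := Nat.cast_ne_zero.2 Fintype.card_ne_zero
    exact_mod_cast (mul_eq_zero.1 h1).resolve_right h5
  obtain ⟨m, hm⟩ : ∃ m, m = Fintype.card G := ⟨_, rfl⟩
  have hm0 : 0 < m := hm ▸ Fintype.card_pos
  have : NeZero m := ⟨hm0.ne'⟩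
  obtain ⟨ζ, hζ⟩ : ∃ ζ : ℂ, IsPrimitiveRoot ζ m := ⟨_, Complex.isPrimitiveRoot_exp m hm0.ne'⟩
  have hk : ∀ x : G, ∃ k : ℕ, k < m ∧ ζ ^ k = χ (-x) := by
    intro x
    have h1 : χ (-x) ^ m = 1 := by
      rw [← AddChar.map_nsmul_eq_pow, hm, card_nsmul_eq_zero, AddChar.map_zero_eq_one]
    exact hζ.eq_pow_of_pow_eq_one h1
  choose k hkm hkx using hk
  have hk0 : k 0 = 0 := by
    have h1 := hkx 0
    rw [neg_zero, AddChar.map_zero_eq_one] at h1
    exact hζ.pow_inj (hkm 0) hm0 (by rw [h1, pow_zero])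
  refine ⟨fun x => hv m (k x), ?_, ?_, fun x => hv_val hm0 _⟩
  · by_contra hcon
    obtain ⟨φ, hφ1, hφ2⟩ := Submodule.exists_le_ker_of_notMem hcon
    let w : G → ℚ := fun x => φ (Pi.single x 1)
    have hφ : ∀ f' : G → ℚ, φ f' = ∑ x, w x * f' x := by
      intro f'
      have e0 : f' = ∑ x, f' x • (Pi.single x (1 : ℚ) : G → ℚ) := by
        funext y
        rw [Finset.sum_apply, Finset.sum_eq_single y]
        · simp
        · intro x _ hx
          rw [Pi.smul_apply, Pi.single_eq_of_ne (Ne.symm hx), smul_zero]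
        · intro h
          exact absurd (Finset.mem_univ _) h
      conv_lhs => rw [e0, map_sum]
      refine Finset.sum_congr rfl fun x _ => ?_
      rw [map_smul, smul_eq_mul, mul_comm]
    have h1 : ∀ a : G, ∑ x, w x * f (a + x) = 0 := fun a => by
      rw [← hφ fun x => f (a + x)]
      exact hφ2 (hA f hf a)
    have h2 : ∑ x, (w x : ℂ) * χ (-x) = 0 := by
      have h3 : ∑ a : G, χ a * ∑ x, (w x : ℂ) * (f (a + x) : ℂ) = 0 := by
        refine Finset.sum_eq_zero fun a _ => ?_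
        have h4 := h1 a
        have h5 : ∑ x, (w x : ℂ) * (f (a + x) : ℂ) = 0 := by exact_mod_cast congrArg (Rat.cast (K := ℂ)) h4
        rw [h5, mul_zero]
      have h6 : ∑ a : G, χ a * ∑ x, (w x : ℂ) * (f (a + x) : ℂ) =
          (∑ x, (w x : ℂ) * χ (-x)) * ∑ x, (f x : ℂ) * χ x := by
        rw [Finset.sum_mul]
        have e1 : ∀ a : G, χ a * ∑ x, (w x : ℂ) * (f (a + x) : ℂ) =
            ∑ x, χ a * ((w x : ℂ) * (f (a + x) : ℂ)) := fun a => Finset.mul_sum _ _ _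
        rw [Finset.sum_congr rfl fun a _ => e1 a, Finset.sum_comm]
        refine Finset.sum_congr rfl fun x _ => ?_
        rw [Finset.mul_sum]
        refine Fintype.sum_equiv (Equiv.addRight x) _ _ fun a => ?_
        rw [Equiv.coe_addRight, AddChar.map_add_eq_mul]
        have h7 : χ (-x) * χ x = 1 := by
          rw [← AddChar.map_add_eq_mul, neg_add_cancel, AddChar.map_zero_eq_one]
        linear_combination -((w x : ℂ) * (f (a + x) : ℂ) * χ a) * h7
      rw [h6] at h3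
      exact (mul_eq_zero.1 h3).resolve_right hχ
    have h3 : cyclotomic m ℚ ∣ ∑ x, C (w x) * X ^ (k x) := by
      rw [cyclotomic_eq_minpoly_rat hζ hm0]
      refine minpoly.dvd ℚ ζ ?_
      rw [map_sum, ← h2]
      refine Finset.sum_congr rfl fun x _ => ?_
      rw [map_mul, aeval_C, map_pow, aeval_X, hkx]
      rfl
    have h4 := Lm_zero m (X_pow_dvd hm0 h3)
    refine hφ1 ?_
    rw [hφ, ← h4, Finset.sum_mul, map_sum]
    refine Finset.sum_congr rfl fun x _ => ?_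
    rw [mul_assoc, ← smul_eq_C_mul, map_smul, smul_eq_mul]
    rfl
  · intro h
    have h1 := congrFun h 0
    simp only [hk0, Pi.zero_apply] at h1
    rw [hv_zero hm0] at h1
    exact one_ne_zero h1

end Pool.Agent.T6.H14.CM
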