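import Pool.Agent.T6.H14.CM.Comb

set_option autoImplicit false

/-!
# Signs on the Galois group of an abelian field
-/

noncomputable section

namespace Pool.Agent.T6.H14.CM

variable {K : Type} [Field K] [CharZero K] [FiniteDimensional ℚ K]

/-- the operator `∑ f(τ) τ` -/
def T (f : (K ≃ₐ[ℚ] K) → ℚ) (κ : K) : K := ∑ τ, f τ • τ κ

theorem T_inj {f : (K ≃ₐ[ℚ] K) → ℚ} (h : ∀ κ, T f κ = 0) : f = 0 := by
  have h1 := linearIndependent_toLinearMap ℚ K K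
  have h2 : LinearIndependent K (fun τ : K ≃ₐ[ℚ] K => (τ : K →ₐ[ℚ] K).toLinearMap) :=
    h1.comp (fun τ : K ≃ₐ[ℚ] K => (τ : K →ₐ[ℚ] K)) (fun σ τ hst => AlgEquiv.ext fun x =>
      DFunLike.congr_fun hst x)
  rw [Fintype.linearIndependent_iff] at h2
  funext τ
  have h3 := h2 (fun τ => algebraMap ℚ K (f τ)) (by
    refine LinearMap.ext fun κ => ?_
    rw [LinearMap.sum_apply, LinearMap.zero_apply, ← h κ]
    refine Finset.sum_congr rfl fun τ _ => ?_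
    rw [LinearMap.smul_apply, smul_eq_mul, Algebra.smul_def]
    rfl) τ
  exact (algebraMap ℚ K).injective (h3.trans (map_zero _).symm)

/-- An equivariant operator is of the form `T f`. -/
theorem exists_T [IsGalois ℚ K] (hab : ∀ σ τ : K ≃ₐ[ℚ] K, σ * τ = τ * σ) (π : K →ₗ[ℚ] K)
    (hπ : ∀ (σ : K ≃ₐ[ℚ] K) κ, π (σ κ) = σ (π κ)) : ∃ f : (K ≃ₐ[ℚ] K) → ℚ, ∀ κ, π κ = T f κ := by
  have h1 := linearIndependent_toLinearMap ℚ K K
  have h2 : LinearIndependent K (fun τ : K ≃ₐ[ℚ] K => (τ : K →ₐ[ℚ] K).toLinearMap) :=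
    h1.comp (fun τ : K ≃ₐ[ℚ] K => (τ : K →ₐ[ℚ] K)) (fun σ τ hst => AlgEquiv.ext fun x =>
      DFunLike.congr_fun hst x)
  have h3 : Fintype.card (K ≃ₐ[ℚ] K) = Module.finrank K (K →ₗ[ℚ] K) := by
    rw [Module.finrank_linearMap_self, ← Nat.card_eq_fintype_card, IsGalois.card_aut_eq_finrank]
  let b := basisOfLinearIndependentOfCardEqFinrank h2 h3
  have hb : ∀ τ, b τ = (τ : K →ₐ[ℚ] K).toLinearMap := fun τ => by
    rw [coe_basisOfLinearIndependentOfCardEqFinrank]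
  have hsum : ∀ κ, π κ = ∑ τ, b.repr π τ * τ κ := by
    intro κ
    conv_lhs => rw [← b.sum_repr π]
    rw [LinearMap.sum_apply]
    refine Finset.sum_congr rfl fun τ _ => ?_
    rw [LinearMap.smul_apply, hb]
    rfl
  have hfix : ∀ (τ σ : K ≃ₐ[ℚ] K), σ (b.repr π τ) = b.repr π τ := by
    intro τ σ
    have h4 : ∑ τ, (σ (b.repr π τ)) • b τ = π := by
      refine LinearMap.ext fun κ => ?_
      have h5 : π κ = σ (π (σ⁻¹ κ)) := by
        rw [← hπ, ← AlgEquiv.mul_apply, mul_inv_cancel, AlgEquiv.one_apply]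
      rw [h5, hsum, map_sum, LinearMap.sum_apply]
      refine Finset.sum_congr rfl fun τ' _ => ?_
      rw [LinearMap.smul_apply, hb, map_mul, smul_eq_mul]
      congr 1
      change τ' κ = σ (τ' (σ⁻¹ κ))
      rw [← AlgEquiv.mul_apply, ← AlgEquiv.mul_apply, ← hab σ⁻¹ (σ * τ'), ← mul_assoc,
        inv_mul_cancel, one_mul]
    have h6 := congrArg (fun F => b.repr F τ) h4
    beta_reduce at h6
    rw [b.repr_sum_self] at h6
    exact h6
  have hrat : ∀ τ, ∃ q : ℚ, algebraMap ℚ K q = b.repr π τ := fun τ =>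
    (IsGalois.mem_range_algebraMap_iff_fixed _).2 (hfix τ)
  choose f hf using hrat
  refine ⟨f, fun κ => ?_⟩
  rw [hsum]
  refine Finset.sum_congr rfl fun τ _ => ?_
  rw [Algebra.smul_def, hf]

/-- Invariant projectors. -/
theorem exists_proj (U : Submodule ℚ K) (hU : ∀ (σ : K ≃ₐ[ℚ] K), ∀ κ ∈ U, σ κ ∈ U) :
    ∃ π : K →ₗ[ℚ] K, (∀ κ, π κ ∈ U) ∧ (∀ κ ∈ U, π κ = κ) ∧
      ∀ (σ : K ≃ₐ[ℚ] K) κ, π (σ κ) = σ (π κ) := by
  obtain ⟨p, hp⟩ := Submodule.exists_isCompl U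
  let π₀ : K →ₗ[ℚ] K := U.subtype.comp (U.projectionOnto p hp)
  have h1 : ∀ κ, π₀ κ ∈ U := fun κ => (U.projectionOnto p hp κ).2
  have h2 : ∀ κ ∈ U, π₀ κ = κ := fun κ hκ => by
    change ((U.projectionOnto p hp κ : U) : K) = κ
    have := Submodule.projectionOnto_apply_left hp ⟨κ, hκ⟩
    rw [this]
  obtain ⟨n, hn⟩ : ∃ n : ℚ, n = Fintype.card (K ≃ₐ[ℚ] K) := ⟨_, rfl⟩
  have hn0 : n ≠ 0 := by
    rw [hn]
    exact_mod_cast Fintype.card_ne_zero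
  refine ⟨n⁻¹ • ∑ σ : K ≃ₐ[ℚ] K, σ.toLinearMap.comp (π₀.comp (σ⁻¹).toLinearMap), ?_, ?_, ?_⟩
  · intro κ
    rw [LinearMap.smul_apply, LinearMap.sum_apply]
    exact U.smul_mem _ (U.sum_mem fun σ _ => hU σ _ (h1 _))
  · intro κ hκ
    rw [LinearMap.smul_apply, LinearMap.sum_apply]
    have h3 : ∀ σ : K ≃ₐ[ℚ] K, (σ.toLinearMap.comp (π₀.comp (σ⁻¹).toLinearMap)) κ = κ := by
      intro σ
      change σ (π₀ (σ⁻¹ κ)) = κ
      rw [h2 _ (hU _ _ hκ), ← AlgEquiv.mul_apply, mul_inv_cancel, AlgEquiv.one_apply]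
    rw [Finset.sum_congr rfl fun σ _ => h3 σ, Finset.sum_const, Finset.card_univ,
      ← Nat.cast_smul_eq_nsmul ℚ, smul_smul, ← hn, inv_mul_cancel₀ hn0, one_smul]
  · intro τ κ
    rw [LinearMap.smul_apply, LinearMap.sum_apply, LinearMap.smul_apply, LinearMap.sum_apply,
      map_rat_smul τ, map_sum]
    congr 1
    refine Fintype.sum_equiv (Equiv.mulLeft τ⁻¹) _ _ fun σ => ?_
    change σ (π₀ (σ⁻¹ (τ κ))) = τ ((τ⁻¹ * σ) (π₀ ((τ⁻¹ * σ)⁻¹ κ)))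
    rw [← AlgEquiv.mul_apply, ← AlgEquiv.mul_apply, mul_inv_cancel_left, mul_inv_rev, inv_inv]

theorem T_comp_left (f : (K ≃ₐ[ℚ] K) → ℚ)
    (σ : K ≃ₐ[ℚ] K) (κ : K) : σ (T (fun τ => f (σ * τ)) κ) = T f κ := by
  unfold T
  rw [map_sum]
  refine Fintype.sum_equiv (Equiv.mulLeft σ) _ _ fun τ => ?_
  rw [map_rat_smul σ, Equiv.coe_mulLeft, AlgEquiv.mul_apply]

theorem T_apply (hab : ∀ σ τ : K ≃ₐ[ℚ] K, σ * τ = τ * σ) (f : (K ≃ₐ[ℚ] K) → ℚ)
    (σ : K ≃ₐ[ℚ] K) (κ : K) : T f (σ κ) = σ (T f κ) := by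
  unfold T
  rw [map_sum]
  refine Finset.sum_congr rfl fun τ _ => ?_
  rw [map_rat_smul σ, ← AlgEquiv.mul_apply, ← AlgEquiv.mul_apply, hab]

/-- A sign function (a CM type). -/
structure IsSign (c : K ≃ₐ[ℚ] K) (ε : (K ≃ₐ[ℚ] K) → ℚ) : Prop where
  val : ∀ τ, ε τ = 1 ∨ ε τ = -1
  odd : ∀ τ, ε (c * τ) = -ε τ

variable (c : K ≃ₐ[ℚ] K)

theorem T_neg (f : (K ≃ₐ[ℚ] K) → ℚ) (κ : K) : T (fun τ => -f τ) κ = -T f κ := by
  unfold T
  rw [← Finset.sum_neg_distrib]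
  exact Finset.sum_congr rfl fun τ _ => neg_smul _ _

theorem T_sub (f f' : (K ≃ₐ[ℚ] K) → ℚ) (κ : K) :
    T (fun τ => f τ - f' τ) κ = T f κ - T f' κ := by
  unfold T
  rw [← Finset.sum_sub_distrib]
  exact Finset.sum_congr rfl fun τ _ => sub_smul _ _ _

theorem T_smul (q : ℚ) (f : (K ≃ₐ[ℚ] K) → ℚ) (κ : K) :
    T (fun τ => q * f τ) κ = q • T f κ := by
  unfold T
  rw [Finset.smul_sum]
  exact Finset.sum_congr rfl fun τ _ => mul_smul _ _ _

theorem T_arg_sub (f : (K ≃ₐ[ℚ] K) → ℚ) (κ κ' : K) : T f (κ - κ') = T f κ - T f κ' := by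
  unfold T
  rw [← Finset.sum_sub_distrib]
  refine Finset.sum_congr rfl fun τ _ => ?_
  rw [map_sub, smul_sub]

theorem T_odd {f : (K ≃ₐ[ℚ] K) → ℚ} (hab : ∀ σ τ : K ≃ₐ[ℚ] K, σ * τ = τ * σ)
    (hf : ∀ τ, f (c * τ) = -f τ) (κ : K) : T f (c κ) = - T f κ := by
  have h1 := T_comp_left f c κ
  have h2 : (fun τ => f (c * τ)) = fun τ => -f τ := funext hf
  rw [h2, T_neg, map_neg] at h1
  rw [T_apply hab]
  linear_combination -h1

/-- Invariant subspaces of the odd part are killed by odd operators. -/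
theorem exists_odd [IsGalois ℚ K] (hab : ∀ σ τ : K ≃ₐ[ℚ] K, σ * τ = τ * σ) (hc : c * c = 1)
    (U : Submodule ℚ K) (hU : ∀ (σ : K ≃ₐ[ℚ] K), ∀ κ ∈ U, σ κ ∈ U)
    (hUc : ∀ κ ∈ U, c κ = -κ) {κ₀ : K} (hκ₀ : c κ₀ = -κ₀) (hκU : κ₀ ∉ U) :
    ∃ f : (K ≃ₐ[ℚ] K) → ℚ, f ≠ 0 ∧ (∀ τ, f (c * τ) = -f τ) ∧ ∀ κ ∈ U, T f κ = 0 := by
  obtain ⟨π, h1, h2, h3⟩ := exists_proj U hU
  obtain ⟨f₀, hf₀⟩ := exists_T hab (LinearMap.id - π) (fun σ κ => by
    rw [LinearMap.sub_apply, LinearMap.sub_apply, h3, map_sub]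
    rfl)
  have hc' : ∀ τ, c * (c * τ) = τ := fun τ => by rw [← mul_assoc, hc, one_mul]
  have hcc : ∀ κ, c (c κ) = κ := fun κ => by rw [← AlgEquiv.mul_apply, hc, AlgEquiv.one_apply]
  have hT : ∀ κ, c κ = -κ → T (fun τ => f₀ τ - f₀ (c * τ)) κ = 2 * (κ - π κ) := by
    intro κ hκ
    have e1 := T_comp_left f₀ c κ
    have e2 : T (fun τ => f₀ (c * τ)) κ = c (T f₀ κ) := by rw [← e1, hcc]
    rw [T_sub, e2, ← hf₀]
    change κ - π κ - c (κ - π κ) = _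
    rw [map_sub, hκ, hUc _ (h1 κ)]
    ring
  refine ⟨fun τ => f₀ τ - f₀ (c * τ), fun h0 => hκU ?_, fun τ => ?_, fun κ hκ => ?_⟩
  · have h4 := hT κ₀ hκ₀
    rw [h0] at h4
    have h5 : T (0 : (K ≃ₐ[ℚ] K) → ℚ) κ₀ = 0 := Finset.sum_eq_zero fun τ _ => zero_smul _ _
    rw [h5] at h4
    have h6 : κ₀ - π κ₀ = 0 := (mul_eq_zero.1 h4.symm).resolve_left two_ne_zero
    rw [sub_eq_zero.1 h6]
    exact h1 _
  · beta_reduce
    rw [hc']
    ring
  · rw [hT κ (hUc κ hκ), h2 κ hκ, sub_self, mul_zero]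

/-- Two sign functions which agree on an invariant subspace. -/
theorem exists_signs [IsGalois ℚ K] (hab : ∀ σ τ : K ≃ₐ[ℚ] K, σ * τ = τ * σ) (hc : c * c = 1)
    {s : (K ≃ₐ[ℚ] K) → ℚ} (hs : IsSign c s)
    (U : Submodule ℚ K) (hU : ∀ (σ : K ≃ₐ[ℚ] K), ∀ κ ∈ U, σ κ ∈ U)
    (hUc : ∀ κ ∈ U, c κ = -κ) {κ₀ : K} (hκ₀ : c κ₀ = -κ₀) (hκU : κ₀ ∉ U) :
    ∃ ε ε' : (K ≃ₐ[ℚ] K) → ℚ, IsSign c ε ∧ IsSign c ε' ∧ ε ≠ ε' ∧ ∀ κ ∈ U, T ε κ = T ε' κ := by
  classical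
  obtain ⟨f, hf0, hfc, hfU⟩ := exists_odd c hab hc U hU hUc hκ₀ hκU
  let _ : CommGroup (K ≃ₐ[ℚ] K) := { (inferInstance : Group (K ≃ₐ[ℚ] K)) with mul_comm := hab }
  let A : Submodule ℚ (Additive (K ≃ₐ[ℚ] K) → ℚ) :=
    { carrier := {h | (∀ τ : K ≃ₐ[ℚ] K, h (Additive.ofMul (c * τ)) = -h (Additive.ofMul τ)) ∧
        ∀ κ ∈ U, T (fun τ => h (Additive.ofMul τ)) κ = 0}
      zero_mem' := ⟨fun τ => by simp, fun κ _ => Finset.sum_eq_zero fun τ _ => zero_smul _ _⟩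
      add_mem' := by
        rintro a b ⟨ha1, ha2⟩ ⟨hb1, hb2⟩
        refine ⟨fun τ => ?_, fun κ hκ => ?_⟩
        · rw [Pi.add_apply, Pi.add_apply, ha1, hb1]
          ring
        · have e1 : T (fun τ => (a + b) (Additive.ofMul τ)) κ =
            T (fun τ => a (Additive.ofMul τ)) κ + T (fun τ => b (Additive.ofMul τ)) κ := by
            unfold T
            rw [← Finset.sum_add_distrib]
            exact Finset.sum_congr rfl fun τ _ => add_smul _ _ _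
          rw [e1, ha2 κ hκ, hb2 κ hκ, add_zero]
      smul_mem' := by
        rintro q a ⟨ha1, ha2⟩
        refine ⟨fun τ => ?_, fun κ hκ => ?_⟩
        · rw [Pi.smul_apply, Pi.smul_apply, ha1, smul_neg]
        · have e1 : T (fun τ => (q • a) (Additive.ofMul τ)) κ =
            q • T (fun τ => a (Additive.ofMul τ)) κ := T_smul q _ κ
          rw [e1, ha2 κ hκ, smul_zero] }
  have hmem : ∀ h : Additive (K ≃ₐ[ℚ] K) → ℚ, h ∈ A ↔
      (∀ τ : K ≃ₐ[ℚ] K, h (Additive.ofMul (c * τ)) = -h (Additive.ofMul τ)) ∧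
        ∀ κ ∈ U, T (fun τ => h (Additive.ofMul τ)) κ = 0 := fun h => Iff.rfl
  obtain ⟨h, hA, h0, hval⟩ := comb A (by
    rintro a ⟨ha1, ha2⟩ σ
    rw [hmem]
    refine ⟨fun τ => ?_, fun κ hκ => ?_⟩
    · have e1 : σ + Additive.ofMul (c * τ) = Additive.ofMul (c * (Additive.toMul σ * τ)) := by
        rw [← ofMul_toMul σ, ← ofMul_mul, toMul_ofMul]
        congr 1
        rw [← mul_assoc, ← mul_assoc, hab c]
      have e2 : σ + Additive.ofMul τ = Additive.ofMul (Additive.toMul σ * τ) := by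
        rw [ofMul_mul, ofMul_toMul]
      rw [e1, e2, ha1]
    · have e1 := T_comp_left (fun τ => a (Additive.ofMul τ)) (Additive.toMul σ) κ
      rw [ha2 κ hκ] at e1
      have e3 : (fun τ => a (σ + Additive.ofMul τ)) =
          fun τ => a (Additive.ofMul (Additive.toMul σ * τ)) := by
        funext τ
        rw [ofMul_mul, ofMul_toMul]
      rw [e3]
      exact (map_eq_zero_iff _ (AlgEquiv.injective _)).1 e1) (by
    intro hbot
    refine hf0 (funext fun τ => ?_)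
    have e1 : (fun x : Additive (K ≃ₐ[ℚ] K) => f (Additive.toMul x)) ∈ A :=
      ⟨fun τ => hfc τ, fun κ hκ => hfU κ hκ⟩
    rw [hbot, Submodule.mem_bot] at e1
    exact congrFun e1 (Additive.ofMul τ))
  obtain ⟨hA1, hA2⟩ := hA
  have hh : ∀ τ : K ≃ₐ[ℚ] K, h (Additive.ofMul (c * τ)) = 0 ↔ h (Additive.ofMul τ) = 0 := by
    intro τ
    rw [hA1, neg_eq_zero]
  refine ⟨fun τ => if h (Additive.ofMul τ) = 0 then s τ else h (Additive.ofMul τ),
    fun τ => if h (Additive.ofMul τ) = 0 then s τ else -h (Additive.ofMul τ),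
    ⟨fun τ => ?_, fun τ => ?_⟩, ⟨fun τ => ?_, fun τ => ?_⟩, fun he => h0 (funext fun x => ?_),
    fun κ hκ => ?_⟩
  · split_ifs with h1
    · exact hs.val τ
    · exact (hval _).resolve_left h1
  · simp only [hh]
    split_ifs with h1
    · exact hs.odd τ
    · exact hA1 τ
  · split_ifs with h1
    · exact hs.val τ
    · rcases (hval (Additive.ofMul τ)).resolve_left h1 with h2 | h2
      · right
        rw [h2]
      · left
        rw [h2, neg_neg]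
  · simp only [hh]
    split_ifs with h1
    · exact hs.odd τ
    · rw [hA1 τ]
  · have h1 := congrFun he (Additive.toMul x)
    simp only [ofMul_toMul] at h1
    by_contra h2
    rw [Pi.zero_apply] at h2
    rw [if_neg h2, if_neg h2] at h1
    apply h2
    linarith
  · rw [← sub_eq_zero, ← T_sub]
    have e1 : (fun τ => (if h (Additive.ofMul τ) = 0 then s τ else h (Additive.ofMul τ)) -
        if h (Additive.ofMul τ) = 0 then s τ else -h (Additive.ofMul τ)) =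
        fun τ => 2 * h (Additive.ofMul τ) := by
      funext τ
      split_ifs with h1
      · rw [h1]; ring
      · ring
    rw [e1, T_smul, hA2 κ hκ, smul_zero]

/-- A sign function is determined by its operator on the odd part. -/
theorem sign_ext [IsGalois ℚ K] (hab : ∀ σ τ : K ≃ₐ[ℚ] K, σ * τ = τ * σ) (hc : c * c = 1)
    {ε ε' : (K ≃ₐ[ℚ] K) → ℚ} (h : ∀ τ, ε (c * τ) = -ε τ) (h' : ∀ τ, ε' (c * τ) = -ε' τ)
    (hT : ∀ κ, c κ = -κ → T ε κ = T ε' κ) : ε = ε' := by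
  have h1 : (fun τ => ε τ - ε' τ) = 0 := by
    refine T_inj fun κ => ?_
    have h2 : T (fun τ => ε τ - ε' τ) (κ - c κ) = 0 := by
      rw [T_sub, sub_eq_zero]
      refine hT _ ?_
      rw [map_sub, ← AlgEquiv.mul_apply, hc, AlgEquiv.one_apply]
      ring
    rw [T_arg_sub, T_odd c hab (fun τ => by rw [h, h']; ring), sub_neg_eq_add, ← two_mul] at h2
    exact (mul_eq_zero.1 h2).resolve_left two_ne_zero
  funext τ
  exact sub_eq_zero.1 (congrFun h1 τ)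

end Pool.Agent.T6.H14.CM
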