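import Pool.Agent.T6.H14.CM.Ser

set_option autoImplicit false
set_option linter.unusedSectionVars false

/-!
# Abelian varieties generated by two abelian varieties: the Lie algebra of the Hodge group is
# determined
-/

open Module Function TensorProduct Matrix

noncomputable section

namespace Pool.Agent.T6.H14.CM

open Pool.Agent.Y102 Pool.Agent.W516.DR Pool.Agent.H204R3.GP Pool.Agent.W516.KC
  Pool.Agent.H204R3.SP Pool.Agent.TH119.MX Pool.Agent.R917.OM Pool.Agent.Y102.AbVar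
  Pool.Agent.R917.EC Pool.Agent.R917.DT Pool.Agent.R917

/-- The Lie algebra of the Hodge group has no proper subalgebras which are closed under replicas and
contain the logarithmic derivatives of the periods. -/
def DX {g : ℕ} (B : AbVar g) : Prop := ∀ 𝔥 : Submodule ℚ (Module.End ℚ B.H1), 𝔥 ≤ B.NA →
  (∀ X ∈ 𝔥, ∀ Y ∈ 𝔥, X * Y - Y * X ∈ 𝔥) →
  (∀ (D : Derivation QBar ℂ ℂ) (lam : ℂ →ₗ[ℚ] ℚ), X0 B.basis tau D lam ∈ 𝔥) → RC 𝔥 →
    B.NA ≤ 𝔥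

section Factor

variable {g g' : ℕ} {A : AbVar g} {B : AbVar g'} {f : A.H1 →ₗ[ℚ] B.H1} {p : B.H1 →ₗ[ℚ] A.H1}

theorem detJ_of_DX (h : Fac A B f p) (hB : DX B) : DetJ A := by
  intro 𝔥 hle hbr h0 hRC r
  have h1 := hB (Fac.qq f p 𝔥) (fun X hX => hX.1) (fun X hX Y hY => ⟨B.NA_bracket hX.1 hY.1, by
    change rs f p (X * Y - Y * X) ∈ 𝔥
    rw [map_sub, h.rs_mul hY.1, h.rs_mul hX.1]
    exact hbr _ hX.2 _ hY.2⟩) (fun D lam => ⟨B.LA_le_NA (by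
      rw [AbVar.LA_eq]
      exact X0_mem B.basis AbVar.tau_ne D lam), by
    change rs f p (X0 B.basis tau D lam) ∈ 𝔥
    rw [h.rs_X0]
    exact h0 D lam⟩) (h.qq_RC hRC) (B.MA_le_NA (B.J_mem r))
  have h2 : rs f p (B.cmpE r AbVar.JJ) ∈ 𝔥 := h1.2
  rwa [h.rs_J] at h2

/-- The image of the Lie algebra. -/
theorem map_full (h : Fac A B f p) {𝔥 : Submodule ℚ (Module.End ℚ B.H1)} (hle : 𝔥 ≤ B.NA)
    (hbr : ∀ X ∈ 𝔥, ∀ Y ∈ 𝔥, X * Y - Y * X ∈ 𝔥)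
    (h0 : ∀ (D : Derivation QBar ℂ ℂ) (lam : ℂ →ₗ[ℚ] ℚ), X0 B.basis tau D lam ∈ 𝔥) :
    A.Full (𝔥.map (rs f p)) := by
  refine full_of_X0 A ?_ ?_ ?_
  · rintro _ ⟨X, hX, rfl⟩
    exact h.rs_NA (hle hX)
  · rintro _ ⟨X, hX, rfl⟩ _ ⟨Y, hY, rfl⟩
    refine ⟨X * Y - Y * X, hbr X hX Y hY, ?_⟩
    rw [map_sub, h.rs_mul (hle hY), h.rs_mul (hle hX)]
  · intro D lam
    exact ⟨_, h0 D lam, h.rs_X0 D lam⟩

theorem exists_rm (lam : ℂ →ₗ[ℚ] ℚ) (N : Matrix (Fin (2 * g)) (Fin (2 * g)) ℂ) :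
    ∃ X : Module.End ℚ A.H1, rm X = N.map (lamF lam) := by
  refine ⟨(LinearMap.toMatrix' : Module.End ℚ (Fin (2 * g) → ℚ) ≃ₗ[ℚ] _).symm
    (Matrix.of fun i j => lam (N j i)), ?_⟩
  rw [rm_eq, toC_eq]
  ext i j
  rw [Matrix.transpose_apply, Matrix.map_apply, Matrix.map_apply, lamF_apply]
  rw [LinearEquiv.apply_symm_apply]
  rfl

theorem nodal_dvd {s t : Finset ℂ} (h : s ⊆ t) :
    (Lagrange.nodal s id : Polynomial ℂ) ∣ Lagrange.nodal t id := by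
  unfold Lagrange.nodal
  exact Finset.prod_dvd_prod_of_subset _ _ _ h

theorem nodal_dvd_of_eval {s : Finset ℂ} {P : Polynomial ℂ} (h : ∀ a ∈ s, P.eval a = 0) :
    (Lagrange.nodal s id : Polynomial ℂ) ∣ P := by
  unfold Lagrange.nodal
  refine Finset.prod_dvd_of_coprime ?_ ?_
  · intro a _ b _ hab
    exact Polynomial.isCoprime_X_sub_C_of_isUnit_sub (sub_ne_zero.2 hab).isUnit
  · intro a ha
    exact Polynomial.dvd_iff_isRoot.2 (h a ha)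

theorem aeval_zero_of_dvd {m : ℕ} {M : Matrix (Fin m) (Fin m) ℂ} {P Q : Polynomial ℂ}
    (h : P ∣ Q) (hP : Polynomial.aeval M P = 0) : Polynomial.aeval M Q = 0 := by
  obtain ⟨R, rfl⟩ := h
  rw [map_mul, hP, zero_mul]

/-- The image of the Lie algebra is closed under replicas, if the diagonalizable elements have
diagonalizable lifts. -/
theorem map_RC (h : Fac A B f p) {𝔥 : Submodule ℚ (Module.End ℚ B.H1)} (hle : 𝔥 ≤ B.NA)
    (hRC : RC 𝔥)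
    (hlift : ∀ Y ∈ 𝔥.map (rs f p), ∀ s : Finset ℂ,
      Polynomial.aeval (rm Y) (Lagrange.nodal s id) = 0 →
      ∃ X ∈ 𝔥, rs f p X = Y ∧ ∃ t : Finset ℂ, Polynomial.aeval (rm X) (Lagrange.nodal t id) = 0) :
    RC (𝔥.map (rs f p)) := by
  classical
  intro Y hY s hs σ Q hQ lam Y' hY'
  obtain ⟨X, hX, rfl, t, ht⟩ := hlift Y hY s hs
  let Q' : Polynomial ℂ := Lagrange.interpolate (s ∪ t) id (fun x => σ x)
  have hQ' : ∀ x ∈ s ∪ t, Q'.eval x = σ x := fun x hx =>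
    Lagrange.eval_interpolate_at_node (fun x => σ x) (Function.injective_id.injOn) hx
  obtain ⟨X', hX'⟩ := exists_rm (A := B) lam (Polynomial.aeval (rm X) Q')
  have h1 : X' ∈ 𝔥 := hRC X hX (s ∪ t)
    (aeval_zero_of_dvd (nodal_dvd Finset.subset_union_right) ht) σ Q' hQ' lam X' hX'
  refine ⟨X', h1, ?_⟩
  apply rm_inj'
  have h2 : Polynomial.aeval (rm (rs f p X)) Q' = Polynomial.aeval (rm (rs f p X)) Q := by
    rw [← sub_eq_zero, ← map_sub]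
    refine aeval_zero_of_dvd (nodal_dvd_of_eval fun a ha => ?_) hs
    rw [Polynomial.eval_sub, hQ' a (Finset.mem_union_left _ ha), hQ a ha, sub_self]
  rw [hY', ← h2, h.aeval_rs (hle hX), Fac.rm_rs, rq_map_right, rq_map_left, hX']

end Factor

section Product

variable {g₁ g₂ g : ℕ} {B₁ : AbVar g₁} {B₂ : AbVar g₂} {B : AbVar g}
  {f₁ : B₁.H1 →ₗ[ℚ] B.H1} {p₁ : B.H1 →ₗ[ℚ] B₁.H1} {f₂ : B₂.H1 →ₗ[ℚ] B.H1}
  {p₂ : B.H1 →ₗ[ℚ] B₂.H1}

/-- **Abelian varieties generated by an abelian variety with a determined derived algebra and an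
abelian variety with complex multiplication.** -/
theorem DX_pair (h₁ : Fac B₁ B f₁ p₁) (h₂ : Fac B₂ B f₂ p₂)
    (hs : ∀ Y ∈ B.NA, rs f₁ p₁ Y = 0 → rs f₂ p₂ Y = 0 → Y = 0)
    (H₁ : ∀ 𝔥, B₁.Full 𝔥 → ∀ X ∈ B₁.NA, ∀ Y ∈ B₁.NA, X * Y - Y * X ∈ 𝔥)
    (H₂ : Det B₂) (Hc : ∀ X ∈ B₂.NA, ∀ Y ∈ B₂.NA, X * Y = Y * X)
    (H₃ : ∀ Z ∈ B.NA, (∀ Y ∈ B.NA, Z * Y = Y * Z) → rs f₂ p₂ Z = 0 → Z = 0) : DX B := by
  classical
  intro 𝔥 hle hbr h0 hRC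
  have hext : ∀ X ∈ B.NA, ∀ Y ∈ B.NA, rs f₁ p₁ X = rs f₁ p₁ Y → rs f₂ p₂ X = rs f₂ p₂ Y →
      X = Y := by
    intro X hX Y hY e₁ e₂
    rw [← sub_eq_zero]
    refine hs _ (B.NA.sub_mem hX hY) ?_ ?_
    · rw [map_sub, e₁, sub_self]
    · rw [map_sub, e₂, sub_self]
  -- the first factor
  have F₁ := map_full h₁ hle hbr h0
  have D₁ := H₁ _ F₁
  have hcomm2 : ∀ X ∈ B.NA, ∀ Y ∈ B.NA, rs f₂ p₂ (X * Y - Y * X) = 0 := by
    intro X hX Y hY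
    rw [map_sub, h₂.rs_mul hY, h₂.rs_mul hX, Hc _ (h₂.rs_NA hX) _ (h₂.rs_NA hY), sub_self]
  -- the derived algebra
  have hder : ∀ X ∈ B.NA, ∀ Y ∈ B.NA, X * Y - Y * X ∈ 𝔥 := by
    intro P hP Q hQ
    have hder1 : der B₁.NA ≤ 𝔥.map (rs f₁ p₁) := by
      unfold der
      rw [Submodule.span_le]
      rintro _ ⟨X, hX, Y, hY, rfl⟩
      exact D₁ X hX Y hY
    obtain ⟨Z, hZ, e, he, e1, e2⟩ := (Pool.Agent.R917.DT.full_NA (A := B₁)).dec (h₁.rs_NA hP)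
    obtain ⟨Z', hZ', e', he', e1', e2'⟩ := (Pool.Agent.R917.DT.full_NA (A := B₁)).dec (h₁.rs_NA hQ)
    obtain ⟨X, hX, hXe⟩ := hder1 he
    obtain ⟨X', hX', hXe'⟩ := hder1 he'
    have h3 : P * Q - Q * P = X * X' - X' * X := by
      refine hext _ (B.NA_bracket hP hQ) _ (B.NA_bracket (hle hX) (hle hX')) ?_ ?_
      · rw [map_sub, map_sub, h₁.rs_mul hQ, h₁.rs_mul hP, h₁.rs_mul (hle hX'),
          h₁.rs_mul (hle hX), hXe, hXe']
        have heN : e ∈ B₁.NA := by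
          rw [← hXe]
          exact h₁.rs_NA (hle hX)
        have heN' : e' ∈ B₁.NA := by
          rw [← hXe']
          exact h₁.rs_NA (hle hX')
        rw [e1, e1', add_mul, mul_add, mul_add, add_mul, mul_add, mul_add, e2 _ hZ', e2 _ heN',
          e2' _ heN]
        abel
      · rw [hcomm2 P hP Q hQ, hcomm2 X (hle hX) X' (hle hX')]
    rw [h3]
    exact hbr X hX X' hX'
  have hderle : der B.NA ≤ 𝔥 := by
    unfold der
    rw [Submodule.span_le]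
    rintro _ ⟨X, hX, Y, hY, rfl⟩
    exact hder X hX Y hY
  have hder2 : ∀ e ∈ der B.NA, rs f₂ p₂ e = 0 := by
    intro e he
    unfold der at he
    induction he using Submodule.span_induction with
    | mem X hX =>
      obtain ⟨P, hP, Q, hQ, rfl⟩ := hX
      exact hcomm2 P hP Q hQ
    | zero => rw [map_zero]
    | add a b _ _ ha hb => rw [map_add, ha, hb, add_zero]
    | smul c a _ ha => rw [map_smul, ha, smul_zero]
  -- central lifts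
  have hcen : ∀ X ∈ 𝔥, ∃ Z ∈ 𝔥, (∀ Y ∈ B.NA, Z * Y = Y * Z) ∧ rs f₂ p₂ Z = rs f₂ p₂ X := by
    intro X hX
    obtain ⟨Z, hZ, e, he, e1, e2⟩ := (Pool.Agent.R917.DT.full_NA (A := B)).dec (hle hX)
    refine ⟨Z, ?_, e2, ?_⟩
    · rw [← sub_eq_iff_eq_add.2 e1]
      exact 𝔥.sub_mem hX (hderle he)
    · rw [e1, map_add, hder2 e he, add_zero]
  -- the second factor
  have F₂ := map_full h₂ hle hbr h0
  have R₂ : RC (𝔥.map (rs f₂ p₂)) := by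
    refine map_RC h₂ hle hRC ?_
    rintro _ ⟨X, hX, rfl⟩ s hsX
    obtain ⟨Z, hZ, h3, h4⟩ := hcen X hX
    obtain ⟨t, -, ht⟩ := imag_roots (hle hZ) h3
    exact ⟨Z, hZ, h4, t, ht⟩
  have D₂ := H₂ _ F₂ R₂
  intro X hX
  obtain ⟨Z, hZ, e, he, e1, e2⟩ := (Pool.Agent.R917.DT.full_NA (A := B)).dec hX
  obtain ⟨X', hX', h3⟩ := D₂ (h₂.rs_NA hZ)
  obtain ⟨Z', hZ', h4, h5⟩ := hcen X' hX'
  have h6 : Z - Z' = 0 := by
    refine H₃ _ (B.NA.sub_mem hZ (hle hZ')) (fun Y hY => ?_) ?_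
    · rw [sub_mul, mul_sub, e2 Y hY, h4 Y hY]
    · rw [map_sub, h5, h3, sub_self]
  rw [e1, sub_eq_zero.1 h6]
  exact 𝔥.add_mem hZ' (hderle he)

end Product

end Pool.Agent.T6.H14.CM
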