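import Pool.Agent.T6.H14.CM.Gal
import Pool.Agent.R917.DT.Rig

set_option autoImplicit false
set_option linter.unusedSectionVars false

/-!
# Abelian varieties with complex multiplication by all types of an abelian field are determined
-/

open Module Function TensorProduct Matrix

noncomputable section

namespace Pool.Agent.T6.H14.CM

open Pool.Agent.Y102 Pool.Agent.W516.DR Pool.Agent.H204R3.GP Pool.Agent.W516.KC
  Pool.Agent.H204R3.SP Pool.Agent.TH119.MX Pool.Agent.R917.OM Pool.Agent.Y102.AbVar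
  Pool.Agent.R917.EC Pool.Agent.R917.DT

variable {K : Type} [Field K] [CharZero K] [FiniteDimensional ℚ K]

theorem T_arg_add (f : (K ≃ₐ[ℚ] K) → ℚ) (κ κ' : K) : T f (κ + κ') = T f κ + T f κ' := by
  unfold T
  rw [← Finset.sum_add_distrib]
  refine Finset.sum_congr rfl fun τ _ => ?_
  rw [map_add, smul_add]

theorem T_arg_smul (f : (K ≃ₐ[ℚ] K) → ℚ) (q : ℚ) (κ : K) : T f (q • κ) = q • T f κ := by
  unfold T
  rw [Finset.smul_sum]
  refine Finset.sum_congr rfl fun τ _ => ?_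
  rw [map_rat_smul τ, smul_comm]

variable {g : ℕ} {A : AbVar g} {I : Type} [Fintype I] [DecidableEq I]

/-- The endomorphism given by multiplications. -/
def Xk (Θ : (I → K) ≃ₗ[ℚ] A.H1) (ε : I → (K ≃ₐ[ℚ] K) → ℚ) (κ : K) : Module.End ℚ A.H1 :=
  Θ.toLinearMap.comp ((LinearMap.pi fun i => (LinearMap.mulLeft ℚ (T (ε i) κ)).comp
    (LinearMap.proj i)).comp Θ.symm.toLinearMap)

theorem Xk_apply (Θ : (I → K) ≃ₗ[ℚ] A.H1) (ε : I → (K ≃ₐ[ℚ] K) → ℚ) (κ : K) (w : A.H1) (i : I) :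
    Θ.symm (Xk Θ ε κ w) i = T (ε i) κ * Θ.symm w i := by
  unfold Xk
  rw [LinearMap.comp_apply, LinearEquiv.coe_coe, LinearEquiv.symm_apply_apply]
  rfl

theorem Xk_eq {Θ : (I → K) ≃ₗ[ℚ] A.H1} {ε : I → (K ≃ₐ[ℚ] K) → ℚ} {κ : K}
    {X : Module.End ℚ A.H1} (h : ∀ x i, Θ.symm (X (Θ x)) i = T (ε i) κ * x i) : X = Xk Θ ε κ := by
  refine LinearMap.ext fun w => ?_
  apply Θ.symm.injective
  funext i
  rw [Xk_apply, ← h, Θ.apply_symm_apply]

theorem Xk_add (Θ : (I → K) ≃ₗ[ℚ] A.H1) (ε : I → (K ≃ₐ[ℚ] K) → ℚ) (κ κ' : K) :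
    Xk Θ ε (κ + κ') = Xk Θ ε κ + Xk Θ ε κ' := by
  refine LinearMap.ext fun w => ?_
  apply Θ.symm.injective
  funext i
  rw [Xk_apply, LinearMap.add_apply, map_add, Pi.add_apply, Xk_apply, Xk_apply, T_arg_add, add_mul]

theorem Xk_smul (Θ : (I → K) ≃ₗ[ℚ] A.H1) (ε : I → (K ≃ₐ[ℚ] K) → ℚ) (q : ℚ) (κ : K) :
    Xk Θ ε (q • κ) = q • Xk Θ ε κ := by
  refine LinearMap.ext fun w => ?_
  apply Θ.symm.injective
  funext i
  rw [Xk_apply, LinearMap.smul_apply, map_smul, Pi.smul_apply, Xk_apply, T_arg_smul,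
    smul_mul_assoc]

/-! ### Eigenvectors -/

/-- The matrix of the eigenvectors. -/
def Ps (Θ : (I → K) ≃ₗ[ℚ] A.H1) (ι : K →+* ℂ) :
    Matrix (Fin (2 * g)) (I × (K ≃ₐ[ℚ] K)) ℂ := Matrix.of fun j b => ι (b.2 (Θ.symm (eb A j) b.1))

theorem rat_iota (ι : K →+* ℂ) (q : ℚ) (x : K) : ι (q • x) = (q : ℂ) * ι x := by
  rw [Algebra.smul_def, map_mul]
  congr 1
  rw [eq_ratCast, map_ratCast]

theorem rm_entry (X : Module.End ℚ A.H1) (j k : Fin (2 * g)) :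
    rm X j k = ((X (eb A j) k : ℚ) : ℂ) := rfl

theorem sum_eb (w : A.H1) : ∑ k, w k • eb A k = w := by
  funext j
  rw [Finset.sum_apply, Finset.sum_eq_single j]
  · unfold eb
    simp
  · intro k _ hk
    unfold eb
    rw [Pi.smul_apply, Pi.single_eq_of_ne (Ne.symm hk), smul_zero]
  · intro h
    exact absurd (Finset.mem_univ _) h

theorem rm_Ps (Θ : (I → K) ≃ₗ[ℚ] A.H1) (ι : K →+* ℂ) (X : Module.End ℚ A.H1) (j : Fin (2 * g))
    (b : I × (K ≃ₐ[ℚ] K)) : (rm X * Ps Θ ι) j b = ι (b.2 (Θ.symm (X (eb A j)) b.1)) := by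
  conv_rhs => rw [← sum_eb (A := A) (X (eb A j))]
  rw [map_sum, Finset.sum_apply, map_sum, map_sum, Matrix.mul_apply]
  refine Finset.sum_congr rfl fun k _ => ?_
  rw [map_smul, Pi.smul_apply, map_rat_smul b.2, rat_iota, rm_entry]
  rfl

theorem Xk_Ps (Θ : (I → K) ≃ₗ[ℚ] A.H1) (ι : K →+* ℂ) (ε : I → (K ≃ₐ[ℚ] K) → ℚ) (κ : K)
    (j : Fin (2 * g)) (b : I × (K ≃ₐ[ℚ] K)) :
    (rm (Xk Θ ε κ) * Ps Θ ι) j b = ι (b.2 (T (ε b.1) κ)) * Ps Θ ι j b := by
  rw [rm_Ps, Xk_apply, map_mul, map_mul]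
  rfl

theorem aeval_eig {m : ℕ} {β : Type} [Fintype β] {M : Matrix (Fin m) (Fin m) ℂ}
    {F : Matrix (Fin m) β ℂ} {d : β → ℂ} (h : ∀ j b, (M * F) j b = d b * F j b)
    (P : Polynomial ℂ) (j : Fin m) (b : β) :
    (Polynomial.aeval M P * F) j b = P.eval (d b) * F j b := by
  induction P using Polynomial.induction_on generalizing j with
  | C a =>
    rw [Polynomial.aeval_C, Algebra.algebraMap_eq_smul_one, Matrix.smul_mul, Matrix.one_mul,
      Matrix.smul_apply, smul_eq_mul, Polynomial.eval_C]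
  | add p q hp hq =>
    rw [map_add, Matrix.add_mul, Matrix.add_apply, hp, hq, Polynomial.eval_add, add_mul]
  | monomial n a ih =>
    rw [pow_succ, ← mul_assoc, map_mul, Polynomial.aeval_X, Matrix.mul_assoc, Matrix.mul_apply]
    simp only [h]
    have h1 : ∀ k, (Polynomial.aeval M (Polynomial.C a * Polynomial.X ^ n)) j k * (d b * F k b) =
        d b * ((Polynomial.aeval M (Polynomial.C a * Polynomial.X ^ n)) j k * F k b) :=
      fun k => by ring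
    simp only [h1]
    rw [← Finset.mul_sum, ← Matrix.mul_apply, ih, Polynomial.eval_mul, Polynomial.eval_mul,
      Polynomial.eval_mul, Polynomial.eval_X]
    ring

theorem Ps_inj (Θ : (I → K) ≃ₗ[ℚ] A.H1) (ι : K →+* ℂ) (v : I × (K ≃ₐ[ℚ] K) → ℂ)
    (h : Ps Θ ι *ᵥ v = 0) : v = 0 := by
  have h1 : ∀ w : A.H1, ∑ b, ι (b.2 (Θ.symm w b.1)) * v b = 0 := by
    intro w
    have h2 : ∑ b, ι (b.2 (Θ.symm w b.1)) * v b = ∑ k, (w k : ℂ) * (Ps Θ ι *ᵥ v) k := by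
      have h3 : ∀ b : I × (K ≃ₐ[ℚ] K), ι (b.2 (Θ.symm w b.1)) * v b =
          ∑ k, (w k : ℂ) * (Ps Θ ι k b * v b) := by
        intro b
        conv_lhs => rw [← sum_eb (A := A) w]
        rw [map_sum, Finset.sum_apply, map_sum, map_sum, Finset.sum_mul]
        refine Finset.sum_congr rfl fun k _ => ?_
        rw [map_smul, Pi.smul_apply, map_rat_smul b.2, rat_iota, mul_assoc]
        rfl
      rw [Finset.sum_congr rfl fun b _ => h3 b, Finset.sum_comm]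
      refine Finset.sum_congr rfl fun k _ => ?_
      rw [← Finset.mul_sum]
      rfl
    rw [h2, h]
    simp
  have hli : LinearIndependent ℂ (fun ρ : K ≃ₐ[ℚ] K =>
      (((ι.comp (ρ : K →+* K)) : K →+* ℂ) : K → ℂ)) := by
    have h4 := (linearIndependent_monoidHom K ℂ).comp
      (fun ρ : K ≃ₐ[ℚ] K => ((ι.comp (ρ : K →+* K) : K →+* ℂ) : K →* ℂ)) (by
        intro ρ ρ' h
        refine AlgEquiv.ext fun x => ι.injective ?_
        exact DFunLike.congr_fun h x)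
    exact h4
  rw [Fintype.linearIndependent_iff] at hli
  funext b
  refine hli (fun ρ => v (b.1, ρ)) ?_ b.2
  funext κ
  have h5 := h1 (Θ (Pi.single b.1 κ))
  rw [Θ.symm_apply_apply, Fintype.sum_prod_type, Finset.sum_eq_single b.1] at h5
  · rw [Finset.sum_apply, Pi.zero_apply, ← h5]
    refine Finset.sum_congr rfl fun ρ _ => ?_
    rw [Pi.smul_apply, smul_eq_mul, mul_comm, Pi.single_eq_same]
    rfl
  · intro i _ hi
    refine Finset.sum_eq_zero fun ρ _ => ?_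
    rw [Pi.single_eq_of_ne hi, map_zero, map_zero, zero_mul]
  · intro hi
    exact absurd (Finset.mem_univ _) hi

theorem Ps_card [IsGalois ℚ K] (Θ : (I → K) ≃ₗ[ℚ] A.H1) :
    Fintype.card (I × (K ≃ₐ[ℚ] K)) = 2 * g := by
  have h1 := Θ.finrank_eq
  have h2 : Module.finrank ℚ A.H1 = 2 * g := Module.finrank_fin_fun ℚ
  rw [Module.finrank_pi_fintype, h2, Finset.sum_const, Finset.card_univ, smul_eq_mul,
    ← IsGalois.card_aut_eq_finrank, Nat.card_eq_fintype_card] at h1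
  rw [Fintype.card_prod, h1]

theorem Ps_cancel [IsGalois ℚ K] (Θ : (I → K) ≃ₗ[ℚ] A.H1) (ι : K →+* ℂ) {m : ℕ}
    {M N : Matrix (Fin m) (Fin (2 * g)) ℂ} (h : M * Ps Θ ι = N * Ps Θ ι) : M = N := by
  have hinj : Function.Injective (Ps Θ ι).mulVecLin := by
    rw [← LinearMap.ker_eq_bot, LinearMap.ker_eq_bot']
    exact fun v hv => Ps_inj Θ ι v hv
  have hsur : Function.Surjective (Ps Θ ι).mulVecLin := by
    rw [← LinearMap.injective_iff_surjective_of_finrank_eq_finrank]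
    · exact hinj
    · rw [Module.finrank_fintype_fun_eq_card, Module.finrank_fin_fun, Ps_card Θ]
  ext i j
  obtain ⟨v, hv⟩ := hsur (Pi.single j 1)
  have h1 := congrFun (congrArg (fun L => L *ᵥ v) h) i
  simp only [← Matrix.mulVec_mulVec] at h1
  rw [Matrix.mulVecLin_apply] at hv
  rw [hv, Matrix.mulVec_single_one, Matrix.mulVec_single_one] at h1
  exact h1

/-- **The replicas of the elements of the Lie algebra.** -/
theorem RC_gal [IsGalois ℚ K] (hab : ∀ σ τ : K ≃ₐ[ℚ] K, σ * τ = τ * σ)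
    (Θ : (I → K) ≃ₗ[ℚ] A.H1) (ε : I → (K ≃ₐ[ℚ] K) → ℚ) (ι : K →+* ℂ)
    {𝔥 : Submodule ℚ (Module.End ℚ A.H1)} (hRC : RC 𝔥) {κ : K} (h : Xk Θ ε κ ∈ 𝔥)
    (τ₀ : K ≃ₐ[ℚ] K) : Xk Θ ε (τ₀ κ) ∈ 𝔥 := by
  classical
  -- the additive map
  have hιs : ∀ (q : ℚ) (x : K), ι (q • x) = q • ι x := by
    intro q x
    rw [rat_iota, Algebra.smul_def]
    rfl
  let ιL : K →ₗ[ℚ] ℂ := { toFun := ι, map_add' := map_add ι, map_smul' := hιs }
  obtain ⟨γ, hγ⟩ := LinearMap.exists_leftInverse_of_injective ιL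
    (LinearMap.ker_eq_bot.2 ι.injective)
  have hγ' : ∀ x, γ (ι x) = x := fun x => LinearMap.congr_fun hγ x
  let σ : ℂ →+ ℂ := (ι.toAddMonoidHom.comp (τ₀ : K →+* K).toAddMonoidHom).comp γ.toAddMonoidHom
  have hσ : ∀ x, σ (ι x) = ι (τ₀ x) := fun x => by
    change ι (τ₀ (γ (ι x))) = _
    rw [hγ']
  let d : I × (K ≃ₐ[ℚ] K) → ℂ := fun b => ι (b.2 (T (ε b.1) κ))
  let s : Finset ℂ := Finset.univ.image d
  have hmem : ∀ b, d b ∈ s := fun b => Finset.mem_image.2 ⟨b, Finset.mem_univ _, rfl⟩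
  have hN : Polynomial.aeval (rm (Xk Θ ε κ)) (Lagrange.nodal s id) = 0 := by
    refine Ps_cancel Θ ι ?_
    ext j b
    rw [aeval_eig (Xk_Ps Θ ι ε κ), Matrix.zero_mul, Matrix.zero_apply]
    have h1 : (Lagrange.nodal s id).eval (d b) = 0 := Lagrange.eval_nodal_at_node (v := id) (hmem b)
    rw [h1, zero_mul]
  let Q : Polynomial ℂ := Lagrange.interpolate s id (fun x => σ x)
  have hQ : ∀ x ∈ s, Q.eval x = σ x := fun x hx =>
    Lagrange.eval_interpolate_at_node (fun x => σ x) (Function.injective_id.injOn) hx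
  have hAQ : Polynomial.aeval (rm (Xk Θ ε κ)) Q = rm (Xk Θ ε (τ₀ κ)) := by
    refine Ps_cancel Θ ι ?_
    ext j b
    rw [aeval_eig (Xk_Ps Θ ι ε κ), Xk_Ps, hQ _ (hmem b)]
    congr 1
    rw [hσ, T_apply hab, ← AlgEquiv.mul_apply, ← AlgEquiv.mul_apply, hab]
  obtain ⟨lam, hlam⟩ := exists_lam1
  refine hRC _ h s hN σ Q hQ lam _ ?_
  rw [hAQ]
  ext i j
  rw [Matrix.map_apply, Pool.Agent.R917.lamF_apply, rm_entry, lam_rat hlam]

/-- The elements of the Lie algebra are diagonalizable. -/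
theorem Xk_diag [IsGalois ℚ K] (Θ : (I → K) ≃ₗ[ℚ] A.H1) (ε : I → (K ≃ₐ[ℚ] K) → ℚ) (ι : K →+* ℂ)
    (κ : K) : ∃ s : Finset ℂ, Polynomial.aeval (rm (Xk Θ ε κ)) (Lagrange.nodal s id) = 0 := by
  classical
  let d : I × (K ≃ₐ[ℚ] K) → ℂ := fun b => ι (b.2 (T (ε b.1) κ))
  refine ⟨Finset.univ.image d, ?_⟩
  refine Ps_cancel Θ ι ?_
  ext j b
  rw [aeval_eig (Xk_Ps Θ ι ε κ), Matrix.zero_mul, Matrix.zero_apply]
  have h1 : (Lagrange.nodal (Finset.univ.image d) id).eval (d b) = 0 :=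
    Lagrange.eval_nodal_at_node (v := id) (Finset.mem_image.2 ⟨b, Finset.mem_univ _, rfl⟩)
  rw [h1, zero_mul]

theorem Xk_comm (Θ : (I → K) ≃ₗ[ℚ] A.H1) (ε : I → (K ≃ₐ[ℚ] K) → ℚ) (κ κ' : K) :
    Xk Θ ε κ * Xk Θ ε κ' = Xk Θ ε κ' * Xk Θ ε κ := by
  refine LinearMap.ext fun w => ?_
  apply Θ.symm.injective
  funext i
  rw [Module.End.mul_apply, Module.End.mul_apply, Xk_apply, Xk_apply, Xk_apply, Xk_apply]
  ring

/-- Complex multiplication by all types of the abelian field `K`: the Lie algebra of the Hodge group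
is given by the reflex traces of the odd elements of `K`. -/
structure Ser (A : AbVar g) (K : Type) [Field K] [CharZero K] [FiniteDimensional ℚ K] (I : Type)
    [Fintype I] [DecidableEq I] where
  c : K ≃ₐ[ℚ] K
  cc : c * c = 1
  Θ : (I → K) ≃ₗ[ℚ] A.H1
  ε : I → (K ≃ₐ[ℚ] K) → ℚ
  sg : ∀ i, IsSign c (ε i)
  all : ∀ e, IsSign c e → ∃ i, ε i = e
  na : ∀ X : Module.End ℚ A.H1, X ∈ A.NA ↔ ∃ κ, c κ = -κ ∧ X = Xk Θ ε κ

/-- There are sign functions. -/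
theorem exists_sign {c : K ≃ₐ[ℚ] K} (hc : c * c = 1) {κ₀ : K} (h : c κ₀ = -κ₀) (h0 : κ₀ ≠ 0) :
    ∃ s, IsSign c s := by
  classical
  have hc1 : ∀ τ, c * τ ≠ τ := by
    intro τ hτ
    have h1 : c = 1 := mul_eq_right.1 hτ
    rw [h1, AlgEquiv.one_apply] at h
    have h2 : (2 : K) * κ₀ = 0 := by linear_combination h
    exact h0 ((mul_eq_zero.1 h2).resolve_left two_ne_zero)
  let e := Fintype.equivFin (K ≃ₐ[ℚ] K)
  have hcc : ∀ τ, c * (c * τ) = τ := fun τ => by rw [← mul_assoc, hc, one_mul]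
  refine ⟨fun τ => if e τ < e (c * τ) then 1 else -1, fun τ => ?_, fun τ => ?_⟩
  · by_cases h1 : e τ < e (c * τ)
    · exact Or.inl (if_pos h1)
    · exact Or.inr (if_neg h1)
  · rw [hcc]
    have hne : e τ ≠ e (c * τ) := fun h1 => hc1 τ (e.injective h1).symm
    rcases lt_or_gt_of_ne hne with h1 | h1
    · rw [if_pos h1, if_neg (not_lt.2 h1.le)]
    · rw [if_pos h1, if_neg (not_lt.2 h1.le), neg_neg]

/-- **Abelian varieties with complex multiplication by all types of an abelian field are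
determined.** -/
theorem Ser.det [IsGalois ℚ K] (hab : ∀ σ τ : K ≃ₐ[ℚ] K, σ * τ = τ * σ) (ι : K →+* ℂ)
    (S : Ser A K I) : Det A := by
  intro 𝔥 hF hRC
  have hodd : ∀ (τ : K ≃ₐ[ℚ] K) (κ : K), S.c κ = -κ → S.c (τ κ) = -τ κ := by
    intro τ κ h
    rw [← AlgEquiv.mul_apply, hab, AlgEquiv.mul_apply, h, map_neg]
  let U : Submodule ℚ K :=
    { carrier := {κ | S.c κ = -κ ∧ Xk S.Θ S.ε κ ∈ 𝔥}
      zero_mem' := ⟨by rw [map_zero, neg_zero], by
        have h1 := Xk_smul S.Θ S.ε 0 0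
        rw [zero_smul, zero_smul] at h1
        rw [h1]
        exact 𝔥.zero_mem⟩
      add_mem' := by
        rintro a b ⟨ha1, ha2⟩ ⟨hb1, hb2⟩
        refine ⟨by rw [map_add, ha1, hb1]; ring, ?_⟩
        rw [Xk_add]
        exact 𝔥.add_mem ha2 hb2
      smul_mem' := by
        rintro q a ⟨ha1, ha2⟩
        refine ⟨by rw [map_rat_smul S.c, ha1, smul_neg], ?_⟩
        rw [Xk_smul]
        exact 𝔥.smul_mem q ha2 }
  have hmem : ∀ κ, κ ∈ U ↔ S.c κ = -κ ∧ Xk S.Θ S.ε κ ∈ 𝔥 := fun _ => Iff.rfl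
  have hU : ∀ (σ : K ≃ₐ[ℚ] K), ∀ κ ∈ U, σ κ ∈ U := by
    rintro σ κ ⟨h1, h2⟩
    exact ⟨hodd σ κ h1, RC_gal hab S.Θ S.ε ι hRC h2 σ⟩
  intro X hX
  by_contra hcon
  obtain ⟨κ₀, h1, rfl⟩ := (S.na X).1 hX
  have hκU : κ₀ ∉ U := fun h => hcon h.2
  have hκ0 : κ₀ ≠ 0 := by
    rintro rfl
    exact hκU U.zero_mem
  obtain ⟨s, hs⟩ := exists_sign S.cc h1 hκ0
  obtain ⟨e, e', he, he', hne, hT⟩ := exists_signs S.c hab S.cc hs U hU (fun κ hκ => hκ.1) h1 hκU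
  obtain ⟨i, rfl⟩ := S.all e he
  obtain ⟨i', rfl⟩ := S.all e' he'
  apply hne
  refine sign_ext S.c hab S.cc he.odd he'.odd fun κ hκ => ?_
  let P : Module.End ℚ A.H1 := S.Θ.toLinearMap.comp (((LinearMap.single ℚ (fun _ : I => K) i').comp
    (LinearMap.proj i)).comp S.Θ.symm.toLinearMap)
  have hP : ∀ w, S.Θ.symm (P w) = Pi.single i' (S.Θ.symm w i) := fun w => by
    change S.Θ.symm (S.Θ _) = _
    rw [S.Θ.symm_apply_apply]
    rfl
  have hcomm := hF.comm P (by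
    intro Y hY
    obtain ⟨κ', h2, rfl⟩ := (S.na Y).1 (hF.le hY)
    refine LinearMap.ext fun w => ?_
    apply S.Θ.symm.injective
    funext j
    rw [Module.End.mul_apply, Module.End.mul_apply, Xk_apply, hP, hP, Xk_apply]
    by_cases hj : j = i'
    · subst hj
      rw [Pi.single_eq_same, Pi.single_eq_same, hT κ' ⟨h2, hY⟩]
    · rw [Pi.single_eq_of_ne hj, Pi.single_eq_of_ne hj, mul_zero]) (Xk S.Θ S.ε κ)
    ((S.na _).2 ⟨κ, hκ, rfl⟩)
  have h3 := congrArg (fun L : Module.End ℚ A.H1 => S.Θ.symm (L (S.Θ (Pi.single i 1))) i') hcomm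
  beta_reduce at h3
  rw [Module.End.mul_apply, Module.End.mul_apply, Xk_apply, hP, hP, Xk_apply,
    S.Θ.symm_apply_apply, Pi.single_eq_same, Pi.single_eq_same, Pi.single_eq_same, mul_one,
    mul_one] at h3
  exact h3.symm

end Pool.Agent.T6.H14.CM
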